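import Pool.Agent.Helper27.TW.D12
import Pool.Agent.Helper40.TWOsg
import Pool.Agent.Helper89.TW.Cau
import Pool.Agent.Helper31.TW.HolD
import Pool.Agent.Helper89.TW.Four
import Pool.Agent.Helper67.TW.Div
import Pool.Agent.Helper89.TW.Coh
import Pool.Agent.Helper41.TW.EE1
import Pool.Agent.Helper16.TW.EE2
import Pool.Agent.Helper16.TW.GF
import Pool.Agent.Helper53.TW.GRESA
import Pool.Agent.Helper10.TW.ResB3
import Pool.Agent.Helper80.TW.Resc
import Pool.Agent.Helper31.TW.Inv
import Pool.Agent.Helper96.TW.TT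
import Pool.Agent.Helper31.TW.NewI
import Pool.Agent.Helper64.TW.NewO
import Pool.Agent.Helper53.TW.GErr
import Pool.Agent.Helper59.TW.Step
import Pool.Agent.Helper63.TW.Num
import Pool.Agent.Helper3.TW.Iter
import Pool.Agent.Helper53.TW.GLimit
import Pool.Agent.Helper39.TW.GStage1
import Pool.Agent.Helper90.TW.GGen
import Pool.Agent.Helper87.TW.Osc
import Pool.Agent.Helper45.TW.Cal
import Pool.Agent.Helper27.TW.C0
import Pool.Agent.Helper84.TW.GPer
import Pool.Agent.Helper11.TW.InvAn
import Pool.Agent.Helper3.TW.Id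
import Pool.Agent.Helper69.TW.GW
import Pool.Agent.Helper95.TW.OscG
import Pool.Agent.Helper4.TW.DetC
import Pool.Agent.Helper87.TW.NI

/-! Assembly of the stages of the proof for near-integrable foliated analytic twist maps. -/

set_option autoImplicit false

namespace Pool.Agent.Helper83.TW

theorem all_D12 : GD12 := Pool.Agent.Helper27.TW.gD12 Pool.Agent.Helper40.TWOsg.gOsg
theorem all_Cau : GCau := Pool.Agent.Helper89.TW.gCau
theorem all_HolD : GHolD := Pool.Agent.Helper31.TW.gHolD all_D12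
theorem all_Four : GFour := Pool.Agent.Helper89.TW.gFour_of all_D12
theorem all_Coh : GCoh := Pool.Agent.Helper89.TW.gCoh_of all_Four Pool.Agent.Helper67.TW.gdiv
theorem all_EE1 : GEE1 := Pool.Agent.Helper41.TW.gEE1 all_D12 all_HolD
theorem all_EE2 : GEE2 := Pool.Agent.Helper16.TW.gee2 all_D12 all_EE1
theorem all_F : GF := Pool.Agent.Helper16.TW.gf all_D12 all_EE1
theorem all_RESB : GRESB :=
  Pool.Agent.Helper10.TW.gresb all_EE1 all_EE2 all_F Pool.Agent.Helper53.TW.gresa all_Cau
theorem all_RESC : GRESC :=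
  Pool.Agent.Helper80.TW.gresc all_RESB Pool.Agent.Helper89.TW.gFour1 all_EE1
theorem all_Inv : GInv := Pool.Agent.Helper31.TW.gInv Pool.Agent.Helper40.TWOsg.gOsg all_Cau
theorem all_TT : GTT := Pool.Agent.Helper96.TW.gTT all_HolD all_Cau
theorem all_NewI : GNewI := Pool.Agent.Helper31.TW.gNewI all_D12 all_TT
theorem all_NewO : GNewO := Helper64TW.newO all_NewI all_D12 all_HolD all_Cau all_TT
theorem all_Err : GErr := Pool.Agent.Helper53.TW.gerr all_Cau all_EE1 all_EE2 all_F all_TT
theorem all_Step : GStep :=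
  Pool.Agent.Helper59.TW.gStep all_RESC all_Coh all_Four all_EE1 all_TT all_Inv all_NewO all_Err
theorem all_Iter : GIter := Pool.Agent.Helper3.TW.giter Pool.Agent.Helper63.TWNum.gnum all_Step all_Cau
theorem all_Limit : GLimit := Pool.Agent.Helper53.TW.glimit all_F all_EE1 all_Cau all_D12
theorem all_Stage1 : GStage1 := pf_GStage1 all_Iter all_Limit
theorem all_Osc : GOsc := Pool.Agent.Helper87.TW.gOsc all_Cau
theorem all_Cal : GCal := Pool.Agent.Helper45.TW.gcal all_Osc
theorem all_C0 : GC0 := Pool.Agent.Helper27.TW.gC0 all_Cal all_Osc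
theorem all_Per : GPer := Pool.Agent.Helper84.TW.GPer_of all_Osc all_Cal
theorem all_Id : GId := Pool.Agent.Helper3.TW.gid all_Osc invAn
theorem all_Gen : GGen := Pool.Agent.Helper90.TW.gGen all_D12 Pool.Agent.Helper40.TWOsg.gOsg all_Cau
theorem all_W : GW := Pool.Agent.Helper69.TW.gW all_Stage1 all_Gen all_C0 all_Per all_Id
theorem all_NI : GNI :=
  Pool.Agent.Helper87.TW.gNI all_W Pool.Agent.Helper95.TW.oscG (Helper4.TW.gDetC all_D12)
    Helper4.TW.gSym all_Cau

end Pool.Agent.Helper83.TW
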