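import Pool.Agent.Helper83.TW.Defs

/-! Elementary facts about the domains. -/

set_option autoImplicit false

namespace Pool.Agent.Helper83.TW

open Complex

theorem isOpen_Om (s : ℝ) : IsOpen (Om s) := by
  have h1 : IsOpen {w : ℂ | 1 - s < w.re} := isOpen_lt continuous_const continuous_re
  have h2 : IsOpen {w : ℂ | w.re < 2 + s} := isOpen_lt continuous_re continuous_const
  have h3 : IsOpen {w : ℂ | |w.im| < s} := isOpen_lt (continuous_abs.comp continuous_im)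
    continuous_const
  exact h1.inter (h2.inter h3)

theorem isOpen_Dom (r s : ℝ) : IsOpen (Dom r s) := by
  have h1 : IsOpen {p : ℂ × ℂ | |p.1.im| < r} :=
    isOpen_lt (continuous_abs.comp (continuous_im.comp continuous_fst)) continuous_const
  have h2 : IsOpen {p : ℂ × ℂ | p.2 ∈ Om s} := (isOpen_Om s).preimage continuous_snd
  exact h1.inter h2

theorem isOpen_DG (ρ : ℝ) : IsOpen (DG ρ) := by
  have h1 : IsOpen {p : ℂ × ℂ | |p.1.im| < ρ} :=
    isOpen_lt (continuous_abs.comp (continuous_im.comp continuous_fst)) continuous_const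
  have h2 : IsOpen {p : ℂ × ℂ | 1/4 < p.2.re} :=
    isOpen_lt continuous_const (continuous_re.comp continuous_snd)
  have h3 : IsOpen {p : ℂ × ℂ | p.2.re < 11/4} :=
    isOpen_lt (continuous_re.comp continuous_snd) continuous_const
  have h4 : IsOpen {p : ℂ × ℂ | |p.2.im| < ρ} :=
    isOpen_lt (continuous_abs.comp (continuous_im.comp continuous_snd)) continuous_const
  exact h1.inter (h2.inter (h3.inter h4))

theorem isOpen_DGh (ρ : ℝ) : IsOpen (DGh ρ) := by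
  have h1 : IsOpen {p : ℂ × ℂ | |p.1.im| < ρ/2} :=
    isOpen_lt (continuous_abs.comp (continuous_im.comp continuous_fst)) continuous_const
  have h2 : IsOpen {p : ℂ × ℂ | 1/2 < p.2.re} :=
    isOpen_lt continuous_const (continuous_re.comp continuous_snd)
  have h3 : IsOpen {p : ℂ × ℂ | p.2.re < 5/2} :=
    isOpen_lt (continuous_re.comp continuous_snd) continuous_const
  have h4 : IsOpen {p : ℂ × ℂ | |p.2.im| < ρ/2} :=
    isOpen_lt (continuous_abs.comp (continuous_im.comp continuous_snd)) continuous_const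
  exact h1.inter (h2.inter (h3.inter h4))

theorem Om_mono {s s' : ℝ} (h : s' ≤ s) : Om s' ⊆ Om s := by
  rintro w ⟨h1, h2, h3⟩
  exact ⟨by linarith, by linarith, by linarith⟩

theorem Dom_mono {r r' s s' : ℝ} (hr : r' ≤ r) (hs : s' ≤ s) : Dom r' s' ⊆ Dom r s := by
  rintro p ⟨h1, h2⟩
  exact ⟨by linarith, Om_mono hs h2⟩

theorem DGh_subset {ρ : ℝ} (hρ : 0 < ρ) : DGh ρ ⊆ DG ρ := by
  rintro p ⟨h1, h2, h3, h4⟩
  exact ⟨by linarith, by linarith, by linarith, by linarith⟩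

theorem Dom_shift {r s : ℝ} {p : ℂ × ℂ} (h : p ∈ Dom r s) : (p.1 + 1, p.2) ∈ Dom r s := by
  refine ⟨?_, h.2⟩
  have := h.1
  simpa using this

theorem DG_shift {ρ : ℝ} {p : ℂ × ℂ} (h : p ∈ DG ρ) : (p.1 + 1, p.2) ∈ DG ρ := by
  refine ⟨?_, h.2⟩
  have := h.1
  simpa using this

theorem Om_cj {s : ℝ} {w : ℂ} (h : w ∈ Om s) : cj w ∈ Om s := by
  obtain ⟨h1, h2, h3⟩ := h
  refine ⟨?_, ?_, ?_⟩
  · simpa using h1
  · simpa using h2
  · simpa using h3

theorem Dom_cj {r s : ℝ} {p : ℂ × ℂ} (h : p ∈ Dom r s) : (cj p.1, cj p.2) ∈ Dom r s := by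
  refine ⟨?_, Om_cj h.2⟩
  have := h.1
  simpa using this

theorem DG_cj {ρ : ℝ} {p : ℂ × ℂ} (h : p ∈ DG ρ) : (cj p.1, cj p.2) ∈ DG ρ := by
  obtain ⟨h1, h2, h3, h4⟩ := h
  refine ⟨?_, ?_, ?_, ?_⟩
  · simpa using h1
  · simpa using h2
  · simpa using h3
  · simpa using h4

theorem Om_real {s x : ℝ} (h1 : 1 - s < x) (h2 : x < 2 + s) (hs : 0 < s) : (x : ℂ) ∈ Om s := by
  refine ⟨?_, ?_, ?_⟩
  · simpa using h1
  · simpa using h2
  · simpa using hs

theorem Hol.mono {f : ℂ × ℂ → ℂ} {U V : Set (ℂ × ℂ)} (h : Hol f U) (hVU : V ⊆ U) : Hol f V :=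
  ⟨h.diff.mono hVU, fun p hp => h.per p (hVU hp), fun p hp => h.sym p (hVU hp)⟩

theorem Hol1.mono {f : ℂ → ℂ} {U V : Set ℂ} (h : Hol1 f U) (hVU : V ⊆ U) : Hol1 f V :=
  ⟨h.diff.mono hVU, fun p hp => h.sym p (hVU hp)⟩

theorem Prm.M_le {ρ r s δ Λ η : ℝ} {M : ℕ} (h : Prm ρ r s δ Λ η M) : 1 ≤ Λ * δ :=
  h.hΛs.trans (mul_le_mul_of_nonneg_left h.hs1 (by linarith [h.hΛ]))

end Pool.Agent.Helper83.TW
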