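import Mathlib

/-!
# MP_39e2b7_an : near-integrable foliated analytic twist maps

Definitions for a quadratically convergent scheme which straightens a real-analytic twist map
close to `(x + y, y)` all of whose periodic orbits come in full invariant circles.

* the map is given by the generating function `L(x, X) = l(x, X - x)`, `l(x, d) = d^2/2 + g(x, d)`;
* a state `St` is an approximate foliation: `h(t, w) = t + u(t, w)` is the parametrisation of the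
  leaf of rotation number `w`, `a(w) t + v(t, w)` is the primitive of the leaf composed with `h`;
* `EE`, `Err` is the error of the weak KAM equation.
-/

set_option autoImplicit false

namespace Pool.Agent.Helper83.TW

open Complex

/-- complex conjugation -/
noncomputable abbrev cj (z : ℂ) : ℂ := (starRingEnd ℂ) z

/-- complex neighbourhood of `[1, 2]` -/
def Om (s : ℝ) : Set ℂ := {w | 1 - s < w.re ∧ w.re < 2 + s ∧ |w.im| < s}

/-- strip times neighbourhood of `[1, 2]` -/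
def Dom (r s : ℝ) : Set (ℂ × ℂ) := {p | |p.1.im| < r ∧ p.2 ∈ Om s}

/-- domain of the generating function -/
def DG (ρ : ℝ) : Set (ℂ × ℂ) :=
  {p | |p.1.im| < ρ ∧ 1/4 < p.2.re ∧ p.2.re < 11/4 ∧ |p.2.im| < ρ}

/-- smaller domain of the generating function -/
def DGh (ρ : ℝ) : Set (ℂ × ℂ) :=
  {p | |p.1.im| < ρ/2 ∧ 1/2 < p.2.re ∧ p.2.re < 5/2 ∧ |p.2.im| < ρ/2}

/-- first partial derivative -/
noncomputable def D1 (f : ℂ × ℂ → ℂ) (p : ℂ × ℂ) : ℂ := deriv (fun z => f (z, p.2)) p.1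

/-- second partial derivative -/
noncomputable def D2 (f : ℂ × ℂ → ℂ) (p : ℂ × ℂ) : ℂ := deriv (fun z => f (p.1, z)) p.2

/-- holomorphic on `U`, 1-periodic in the first variable, real on reals -/
structure Hol (f : ℂ × ℂ → ℂ) (U : Set (ℂ × ℂ)) : Prop where
  diff : DifferentiableOn ℂ f U
  per : ∀ p ∈ U, f (p.1 + 1, p.2) = f p
  sym : ∀ p ∈ U, f (cj p.1, cj p.2) = cj (f p)

/-- holomorphic on `U`, real on reals -/
structure Hol1 (f : ℂ → ℂ) (U : Set ℂ) : Prop where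
  diff : DifferentiableOn ℂ f U
  sym : ∀ w ∈ U, f (cj w) = cj (f w)

/-- a state of the scheme -/
structure St where
  u : ℂ × ℂ → ℂ
  v : ℂ × ℂ → ℂ
  a : ℂ → ℂ
  γ : ℂ → ℂ

/-- a state with bounds `c` on `Dom r s` -/
structure Ok (S : St) (r s c : ℝ) : Prop where
  hu : Hol S.u (Dom r s)
  hv : Hol S.v (Dom r s)
  ha : Hol1 S.a (Om s)
  hγ : Hol1 S.γ (Om s)
  c0 : 0 ≤ c
  bu : ∀ p ∈ Dom r s, ‖S.u p‖ ≤ c
  bu1 : ∀ p ∈ Dom r s, ‖D1 S.u p‖ ≤ c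
  bu2 : ∀ p ∈ Dom r s, ‖D2 S.u p‖ ≤ c
  bu11 : ∀ p ∈ Dom r s, ‖D1 (D1 S.u) p‖ ≤ c
  bv1 : ∀ p ∈ Dom r s, ‖D1 S.v p‖ ≤ c
  bv11 : ∀ p ∈ Dom r s, ‖D1 (D1 S.v) p‖ ≤ c
  ba : ∀ w ∈ Om s, ‖S.a w - w‖ ≤ c
  ba1 : ∀ w ∈ Om s, ‖deriv S.a w - 1‖ ≤ c
  I2 : ∀ p ∈ Dom r s, (1 + D1 S.u p) * D2 S.v p = (S.a p.2 + D1 S.v p) * D2 S.u p
  I3 : ∀ w ∈ Om s, deriv S.γ w = w * deriv S.a w

/-- the parametrisation `h = t + u` -/
noncomputable def hh (S : St) (p : ℂ × ℂ) : ℂ := p.1 + S.u p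

/-- the slope `p = (a + v_t) / (1 + u_t)` -/
noncomputable def pp (S : St) (p : ℂ × ℂ) : ℂ := (S.a p.2 + D1 S.v p) / (1 + D1 S.u p)

/-- the increment `h(α + w + z) - h(α)` -/
noncomputable def de (S : St) (α z w : ℂ) : ℂ :=
  w + z + S.u (α + w + z, w) - S.u (α, w)

/-- the error with a displaced second point -/
noncomputable def EE (g : ℂ × ℂ → ℂ) (S : St) (α z w : ℂ) : ℂ :=
  (de S α z w) ^ 2 / 2 + g (hh S (α, w), de S α z w) - S.a w * (w + z)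
    - (S.v (α + w + z, w) - S.v (α, w)) + S.γ w

/-- formula for the `z`-derivative of `EE` -/
noncomputable def EEz (g : ℂ × ℂ → ℂ) (S : St) (α z w : ℂ) : ℂ :=
  (1 + D1 S.u (α + w + z, w)) * (de S α z w + D2 g (hh S (α, w), de S α z w))
    - S.a w - D1 S.v (α + w + z, w)

/-- formula for the `α`-derivative of `EE` -/
noncomputable def EEa (g : ℂ × ℂ → ℂ) (S : St) (α z w : ℂ) : ℂ :=
  D1 g (hh S (α, w), de S α z w) * (1 + D1 S.u (α, w))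
    + (de S α z w + D2 g (hh S (α, w), de S α z w))
        * (D1 S.u (α + w + z, w) - D1 S.u (α, w))
    - (D1 S.v (α + w + z, w) - D1 S.v (α, w))

/-- the error function of a state -/
noncomputable def Err (g : ℂ × ℂ → ℂ) (S : St) (p : ℂ × ℂ) : ℂ := EE g S p.1 0 p.2

/-- the function `F = ∂_z EE` at `z = 0` -/
noncomputable def FF (g : ℂ × ℂ → ℂ) (S : St) (p : ℂ × ℂ) : ℂ := EEz g S p.1 0 p.2

/-- Fourier coefficient in the first variable -/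
noncomputable def fc (E : ℂ × ℂ → ℂ) (m : ℤ) (w : ℂ) : ℂ :=
  ∫ x in (0:ℝ)..1, E ((x : ℂ), w) * Complex.exp (-(2 * Real.pi * m * x : ℝ) * I)

/-- parameters of one step of the scheme -/
structure Prm (ρ r s δ Λ η : ℝ) (M : ℕ) : Prop where
  hρ0 : 0 < ρ
  hρ1 : ρ ≤ 1/4
  hr0 : ρ/8 + 8*δ ≤ r
  hr1 : r ≤ ρ/4
  hδ0 : 0 < δ
  hδ1 : δ ≤ ρ/128
  hs0 : 0 < s
  hs1 : s ≤ δ
  hΛ : 1024 ≤ Λ
  hΛs : 1 ≤ Λ * s
  hM0 : 1 ≤ M
  hMΛ : (M : ℝ) ≤ Λ
  hMs : (M : ℝ) * s ≤ 1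
  hη0 : 0 < η
  hη : Λ^40 * η ≤ 1

/-- bounds for the perturbation `g` -/
structure GB (g : ℂ × ℂ → ℂ) (ρ : ℝ) : Prop where
  hol : Hol g (DG ρ)
  b1 : ∀ p ∈ DGh ρ, ‖D1 g p‖ ≤ 1/1000
  b2 : ∀ p ∈ DGh ρ, ‖D2 g p‖ ≤ 1/1000
  b22 : ∀ p ∈ DGh ρ, ‖D2 (D2 g) p‖ ≤ 1/1000

/-- real discrete Euler-Lagrange equation at the middle point of `x, y, z` -/
def EL (g : ℂ × ℂ → ℂ) (x y z : ℝ) : Prop :=
  (((y - x : ℝ) : ℂ) + D2 g ((x : ℂ), ((y - x : ℝ) : ℂ)))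
    = ((z - y : ℝ) : ℂ) + D2 g ((y : ℂ), ((z - y : ℝ) : ℂ)) - D1 g ((y : ℂ), ((z - y : ℝ) : ℂ))

/-- the action of one step (complex valued) -/
noncomputable def ell (g : ℂ × ℂ → ℂ) (x d : ℂ) : ℂ := d ^ 2 / 2 + g (x, d)

/-- all real periodic Euler-Lagrange paths of type `(m, j)` have the same action -/
def PERc (g : ℂ × ℂ → ℂ) : Prop :=
  ∀ (m : ℕ) (j : ℤ), 1 ≤ m → 3/4 < (j : ℝ) / m → (j : ℝ) / m < 9/4 →
    ∃ C : ℂ, ∀ x : ℕ → ℝ,
      (∀ i, i < m → 1/2 < x (i+1) - x i ∧ x (i+1) - x i < 5/2) →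
      x m = x 0 + j →
      (∀ i, i + 1 < m → EL g (x i) (x (i+1)) (x (i+2))) →
      ∑ i ∈ Finset.range m, ell g (x i) ((x (i+1) - x i : ℝ) : ℂ) = C

/-- the correction of the angle forced by the symplectic identity -/
noncomputable def tt (S : St) (κ : ℂ × ℂ → ℂ) (E0 : ℂ → ℂ) (p : ℂ × ℂ) : ℂ :=
  (D2 κ p - D2 S.u p / (1 + D1 S.u p) * (D1 κ p + deriv E0 p.2))
    / (deriv S.a p.2 + deriv (deriv E0) p.2)

/-- the new state: compose with `t ↦ t + τ(t, w)` -/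
noncomputable def newS (S : St) (κ : ℂ × ℂ → ℂ) (E0 : ℂ → ℂ) (τ : ℂ × ℂ → ℂ) : St where
  u := fun p => τ p + S.u (p.1 + τ p, p.2)
  v := fun p => (S.a p.2 + deriv E0 p.2) * τ p + S.v (p.1 + τ p, p.2) + κ (p.1 + τ p, p.2)
  a := fun w => S.a w + deriv E0 w
  γ := fun w => S.γ w + w * deriv E0 w - E0 w

end Pool.Agent.Helper83.TW
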