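import Pool.Agent.Helper83.TW.Basic

/-! Stage 1 of the proof: the scheme. Each `def ... : Prop` is a lemma to be proved elsewhere. -/

set_option autoImplicit false

namespace Pool.Agent.Helper83.TW

open Complex Set

/-! ### Toolkit in two complex variables -/

/-- partial derivatives of a holomorphic function are holomorphic; total derivative -/
def GD12 : Prop :=
  ∀ (f : ℂ × ℂ → ℂ) (U : Set (ℂ × ℂ)), IsOpen U → DifferentiableOn ℂ f U →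
    DifferentiableOn ℂ (D1 f) U ∧ DifferentiableOn ℂ (D2 f) U ∧
    (∀ p ∈ U, D1 (D2 f) p = D2 (D1 f) p) ∧
    (∀ p ∈ U, HasFDerivAt f
      (D1 f p • ContinuousLinearMap.fst ℂ ℂ ℂ + D2 f p • ContinuousLinearMap.snd ℂ ℂ ℂ) p)

/-- Osgood's lemma, and Weierstrass' theorem in two variables -/
def GOsg : Prop :=
  (∀ (f : ℂ × ℂ → ℂ) (U : Set (ℂ × ℂ)), IsOpen U → ContinuousOn f U →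
    (∀ p ∈ U, DifferentiableAt ℂ (fun z => f (z, p.2)) p.1) →
    (∀ p ∈ U, DifferentiableAt ℂ (fun z => f (p.1, z)) p.2) → DifferentiableOn ℂ f U) ∧
  (∀ (f : ℕ → ℂ × ℂ → ℂ) (F : ℂ × ℂ → ℂ) (U : Set (ℂ × ℂ)), IsOpen U →
    (∀ n, DifferentiableOn ℂ (f n) U) → TendstoUniformlyOn f F Filter.atTop U →
    DifferentiableOn ℂ F U)

/-- derivatives inherit periodicity and reality -/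
def GHolD : Prop :=
  (∀ (f : ℂ × ℂ → ℂ) (U : Set (ℂ × ℂ)), IsOpen U → (∀ p ∈ U, (p.1 + 1, p.2) ∈ U) →
    (∀ p ∈ U, (cj p.1, cj p.2) ∈ U) → Hol f U → Hol (D1 f) U ∧ Hol (D2 f) U) ∧
  (∀ (f : ℂ → ℂ) (s : ℝ), Hol1 f (Om s) → Hol1 (deriv f) (Om s))

/-- Cauchy estimates on the domains used -/
def GCau : Prop :=
  (∀ (f : ℂ → ℂ) (z0 : ℂ) (B δ : ℝ), 0 < δ → DifferentiableOn ℂ f (Metric.ball z0 δ) →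
    (∀ z ∈ Metric.ball z0 δ, ‖f z‖ ≤ B) → ‖deriv f z0‖ ≤ B / δ) ∧
  (∀ (f : ℂ × ℂ → ℂ) (B r s δ : ℝ), 0 < δ → DifferentiableOn ℂ f (Dom r s) →
    (∀ p ∈ Dom r s, ‖f p‖ ≤ B) → ∀ p ∈ Dom (r - δ) s, ‖D1 f p‖ ≤ B / δ) ∧
  (∀ (f : ℂ × ℂ → ℂ) (B r s σ : ℝ), 0 < σ → DifferentiableOn ℂ f (Dom r s) →
    (∀ p ∈ Dom r s, ‖f p‖ ≤ B) → ∀ p ∈ Dom r (s - σ), ‖D2 f p‖ ≤ B / σ) ∧
  (∀ (f : ℂ → ℂ) (B s σ : ℝ), 0 < σ → DifferentiableOn ℂ f (Om s) →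
    (∀ w ∈ Om s, ‖f w‖ ≤ B) → ∀ w ∈ Om (s - σ), ‖deriv f w‖ ≤ B / σ) ∧
  (∀ (f : ℂ × ℂ → ℂ) (B ρ : ℝ), 0 < ρ → ρ ≤ 1/4 → DifferentiableOn ℂ f (DG ρ) →
    (∀ p ∈ DG ρ, ‖f p‖ ≤ B) → ∀ p ∈ DGh ρ,
      ‖D1 f p‖ ≤ 2 * B / ρ ∧ ‖D2 f p‖ ≤ 2 * B / ρ ∧ ‖D2 (D2 f) p‖ ≤ 16 * B / ρ ^ 2)

/-- Fourier coefficients of a function on `Dom R S` -/
def GFour : Prop :=
  ∀ (R S B : ℝ) (E : ℂ × ℂ → ℂ), 0 < R → 0 < S → DifferentiableOn ℂ E (Dom R S) →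
    (∀ p ∈ Dom R S, E (p.1 + 1, p.2) = E p) → (∀ p ∈ Dom R S, ‖E p‖ ≤ B) →
    (∀ m : ℤ, DifferentiableOn ℂ (fc E m) (Om S)) ∧
    (∀ m : ℤ, ∀ w ∈ Om S, ‖fc E m w‖ ≤ B * Real.exp (-(2 * Real.pi * |(m:ℝ)| * R))) ∧
    (∀ (M : ℕ) (δ : ℝ), 0 < δ → δ ≤ R → ∀ p ∈ Dom (R - δ) S,
      ‖E p - ∑ m ∈ Finset.Icc (-(M:ℤ)) (M:ℤ),
          fc E m p.2 * Complex.exp (2 * Real.pi * m * I * p.1)‖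
        ≤ B / δ * Real.exp (-(2 * Real.pi * M * δ)))

/-- Fourier coefficients in one variable -/
def GFour1 : Prop :=
  ∀ (R B : ℝ) (f : ℂ → ℂ) (C : ℂ), 0 < R → DifferentiableOn ℂ f {z | |z.im| < R} →
    (∀ z : ℂ, |z.im| < R → f (z + 1) = f z) → (∀ z : ℂ, |z.im| < R → ‖f z - C‖ ≤ B) →
    ∀ m : ℤ, m ≠ 0 →
      ‖∫ x in (0:ℝ)..1, f (x : ℂ) * Complex.exp (-(2 * Real.pi * m * x : ℝ) * I)‖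
        ≤ B * Real.exp (-(2 * Real.pi * |(m:ℝ)| * R))

/-- division by `exp (2 π i m w) - 1` after an interpolation at the resonances -/
def GDiv : Prop :=
  ∀ (s B1 B2 : ℝ) (m : ℤ) (e : ℂ → ℂ), 0 < s → s ≤ 1/4 → m ≠ 0 → |(m:ℝ)| * s ≤ 1 →
    DifferentiableOn ℂ e (Om s) → (∀ w ∈ Om s, ‖e w‖ ≤ B1) → 0 ≤ B2 →
    (∀ j : ℤ, 1 - 3/4 * s < (j:ℝ) / m → (j:ℝ) / m < 2 + 3/4 * s →
      ‖e (((j:ℝ) / m : ℝ) : ℂ)‖ ≤ B2) →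
    ∃ κ ρm : ℂ → ℂ, DifferentiableOn ℂ κ (Om (s/2)) ∧ DifferentiableOn ℂ ρm (Om (s/2)) ∧
      (∀ w ∈ Om (s/2), ‖ρm w‖ ≤ 100 * |(m:ℝ)| * B2) ∧
      (∀ w ∈ Om (s/2), ‖κ w‖ ≤ 16 / (|(m:ℝ)| * s) * (B1 + 100 * |(m:ℝ)| * B2)) ∧
      (∀ w ∈ Om (s/2), κ w * (Complex.exp (2 * Real.pi * m * I * w) - 1) = e w - ρm w)

/-- the approximate cohomological equation -/
def GCoh : Prop :=
  ∀ (ρ r s δ Λ η : ℝ) (M : ℕ), Prm ρ r s δ Λ η M → ∀ E : ℂ × ℂ → ℂ,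
    Hol E (Dom (r - δ) s) → (∀ p ∈ Dom (r - δ) s, ‖E p‖ ≤ η) →
    (∀ m j : ℤ, m ≠ 0 → |m| ≤ (M:ℤ) → 1 - 3/4 * s < (j:ℝ) / m → (j:ℝ) / m < 2 + 3/4 * s →
      ‖fc E m (((j:ℝ) / m : ℝ) : ℂ)‖
        ≤ Λ^14 * η^2 * Real.exp (-(2 * Real.pi * |(m:ℝ)| * (r - 4*δ)))) →
    ∃ κ : ℂ × ℂ → ℂ, Hol κ (Dom (r - 5*δ) (s/2)) ∧
      (∀ p ∈ Dom (r - 5*δ) (s/2), ‖κ p‖ ≤ Λ^3 * η) ∧
      (∀ p ∈ Dom (r - 6*δ) (s/2),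
        ‖E p - fc E 0 p.2 - (κ (p.1 + p.2, p.2) - κ p)‖
          ≤ Λ * η * Real.exp (-(2 * Real.pi * M * δ)) + Λ^18 * η^2)

/-! ### The error function -/

/-- first derivatives and symmetries of `EE` -/
def GEE1 : Prop :=
  ∀ (ρ r s δ Λ η : ℝ) (M : ℕ), Prm ρ r s δ Λ η M → ∀ g : ℂ × ℂ → ℂ, GB g ρ →
  ∀ (S : St) (c : ℝ), Ok S r s c → c ≤ ρ/64 →
    (∀ α z w : ℂ, |α.im| < r - 2*δ → ‖z‖ < δ → w ∈ Om s →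
      (hh S (α, w), de S α z w) ∈ DGh ρ ∧
      HasDerivAt (fun z' => EE g S α z' w) (EEz g S α z w) z ∧
      HasDerivAt (fun α' => EE g S α' z w) (EEa g S α z w) α ∧
      EE g S (cj α) (cj z) (cj w) = cj (EE g S α z w) ∧
      EEz g S (cj α) (cj z) (cj w) = cj (EEz g S α z w) ∧
      EEa g S (cj α) (cj z) (cj w) = cj (EEa g S α z w)) ∧
    (∀ w ∈ Om s, DifferentiableOn ℂ (fun q : ℂ × ℂ => EE g S q.1 q.2 w)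
      {q | |q.1.im| < r - 2*δ ∧ ‖q.2‖ < δ} ∧
      DifferentiableOn ℂ (fun q : ℂ × ℂ => EEz g S q.1 q.2 w)
      {q | |q.1.im| < r - 2*δ ∧ ‖q.2‖ < δ} ∧
      DifferentiableOn ℂ (fun q : ℂ × ℂ => EEa g S q.1 q.2 w)
      {q | |q.1.im| < r - 2*δ ∧ ‖q.2‖ < δ}) ∧
    Hol (Err g S) (Dom (r - δ) s) ∧
    (∀ p ∈ Dom (r - δ) s, (hh S p, de S p.1 0 p.2) ∈ DGh ρ)

/-- second order estimates for `EE` in `z` -/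
def GEE2 : Prop :=
  ∀ (ρ r s δ Λ η : ℝ) (M : ℕ), Prm ρ r s δ Λ η M → ∀ g : ℂ × ℂ → ℂ, GB g ρ →
  ∀ (S : St) (c : ℝ), Ok S r s c → c ≤ ρ/64 →
    (∀ α z z' w : ℂ, |α.im| < r - 2*δ → ‖z‖ < δ → ‖z'‖ < δ → w ∈ Om s →
      ‖(EEz g S α z w - z) - (EEz g S α z' w - z')‖ ≤ ‖z - z'‖ / 16) ∧
    (∀ α z w : ℂ, |α.im| < r - 2*δ → ‖z‖ < δ → w ∈ Om s →
      ‖EE g S α z w - EE g S α 0 w - EEz g S α 0 w * z‖ ≤ 2 * ‖z‖ ^ 2)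

/-- the error controls the defect of invariance -/
def GF : Prop :=
  ∀ (ρ r s δ Λ η : ℝ) (M : ℕ), Prm ρ r s δ Λ η M → ∀ g : ℂ × ℂ → ℂ, GB g ρ →
  ∀ (S : St) (c : ℝ), Ok S r s c → c ≤ ρ/64 → ∀ p ∈ Dom (r - δ) s,
    ‖FF g S p‖ ≤ 4 * (‖D1 (Err g S) p‖ + ‖D2 (Err g S) p‖) ∧
    ‖de S p.1 0 p.2 + D2 g (hh S p, de S p.1 0 p.2) - pp S (p.1 + p.2, p.2)‖
      ≤ 8 * (‖D1 (Err g S) p‖ + ‖D2 (Err g S) p‖) ∧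
    ‖de S p.1 0 p.2 + D2 g (hh S p, de S p.1 0 p.2) - D1 g (hh S p, de S p.1 0 p.2) - pp S p‖
      ≤ 8 * (‖D1 (Err g S) p‖ + ‖D2 (Err g S) p‖)

/-- points of the perturbed orbit -/
noncomputable def pt (w0 : ℝ) (z : ℕ → ℂ → ℂ) (α : ℂ) (i : ℕ) : ℂ :=
  α + i * w0 + ∑ l ∈ Finset.range i, z l α

/-- abstract fixed point problem for perturbed orbits -/
def GRESA : Prop :=
  ∀ (R δ ν ε0 ε1 w0 : ℝ) (m : ℕ) (A B : ℂ → ℂ → ℂ),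
    0 < δ → 0 < ν → 1 ≤ m → 0 ≤ ε0 → 0 ≤ ε1 → m * ν ≤ δ → 4 * (m + 1) * ε0 ≤ ν →
    16 * m * (m + 2) * ε1 ≤ 1 →
    DifferentiableOn ℂ (fun q : ℂ × ℂ => A q.1 q.2) {q | |q.1.im| < R ∧ ‖q.2‖ < 2*ν} →
    DifferentiableOn ℂ (fun q : ℂ × ℂ => B q.1 q.2) {q | |q.1.im| < R ∧ ‖q.2‖ < 2*ν} →
    (∀ α z : ℂ, |α.im| < R → ‖z‖ < 2*ν → A (cj α) (cj z) = cj (A α z)) →
    (∀ α z : ℂ, |α.im| < R → ‖z‖ < 2*ν → B (cj α) (cj z) = cj (B α z)) →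
    (∀ α z : ℂ, |α.im| < R → ‖z‖ < 2*ν → ‖A α z‖ ≤ ε0) →
    (∀ α z : ℂ, |α.im| < R → ‖z‖ < 2*ν → ‖B α z‖ ≤ ε0 + ‖z‖ / 16) →
    (∀ α α' z z' : ℂ, |α.im| < R → |α'.im| < R → ‖z‖ < 2*ν → ‖z'‖ < 2*ν →
      ‖A α z - A α' z'‖ ≤ ε1 * (‖α - α'‖ + ‖z - z'‖)) →
    (∀ α α' z z' : ℂ, |α.im| < R → |α'.im| < R → ‖z‖ < 2*ν → ‖z'‖ < 2*ν →
      ‖B α z - B α' z'‖ ≤ ε1 * ‖α - α'‖ + ‖z - z'‖ / 16) →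
    ∃ z : ℕ → ℂ → ℂ, (∀ i, DifferentiableOn ℂ (z i) {α | |α.im| < R - δ}) ∧
      ∀ α : ℂ, |α.im| < R - δ →
        (∀ i, ‖z i α‖ ≤ ν ∧ z i (cj α) = cj (z i α)) ∧
        (∀ i, i ≤ m → |(pt w0 z α i).im| < R) ∧
        ∑ i ∈ Finset.range m, z i α = 0 ∧
        (∀ i, i + 1 < m →
          z (i+1) α + B (pt w0 z α (i+1)) (z (i+1) α)
            = z i α + B (pt w0 z α i) (z i α) + A (pt w0 z α (i+1)) (z (i+1) α))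

/-- sums of the error over a resonant orbit are constant up to a quadratic error -/
def GRESB : Prop :=
  ∀ (ρ r s δ Λ η : ℝ) (M : ℕ), Prm ρ r s δ Λ η M → ∀ g : ℂ × ℂ → ℂ, GB g ρ → PERc g →
  ∀ (S : St) (c : ℝ), Ok S r s c → c ≤ ρ/64 → (∀ p ∈ Dom (r - δ) s, ‖Err g S p‖ ≤ η) →
  ∀ (m : ℕ) (j : ℤ), 1 ≤ m → m ≤ M → 1 - 3/4 * s < (j:ℝ) / m → (j:ℝ) / m < 2 + 3/4 * s →
    ∃ C : ℂ, ∀ α : ℂ, |α.im| < r - 4*δ →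
      ‖∑ i ∈ Finset.range m,
          Err g S (α + i * (((j:ℝ) / m : ℝ) : ℂ), (((j:ℝ) / m : ℝ) : ℂ)) - C‖ ≤ Λ^14 * η^2

/-- resonant Fourier coefficients are quadratically small -/
def GRESC : Prop :=
  ∀ (ρ r s δ Λ η : ℝ) (M : ℕ), Prm ρ r s δ Λ η M → ∀ g : ℂ × ℂ → ℂ, GB g ρ → PERc g →
  ∀ (S : St) (c : ℝ), Ok S r s c → c ≤ ρ/64 → (∀ p ∈ Dom (r - δ) s, ‖Err g S p‖ ≤ η) →
  ∀ m j : ℤ, m ≠ 0 → |m| ≤ (M:ℤ) → 1 - 3/4 * s < (j:ℝ) / m → (j:ℝ) / m < 2 + 3/4 * s →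
    ‖fc (Err g S) m (((j:ℝ) / m : ℝ) : ℂ)‖
      ≤ Λ^14 * η^2 * Real.exp (-(2 * Real.pi * |(m:ℝ)| * (r - 4*δ)))

/-! ### The new state -/

/-- solving `τ + t(θ + τ) = 0` -/
def GInv : Prop :=
  ∀ (R S1 δ1 ν : ℝ) (t : ℂ × ℂ → ℂ), 0 < S1 → 0 < δ1 → 0 ≤ ν → 4 * ν ≤ δ1 →
    Hol t (Dom R S1) → (∀ p ∈ Dom R S1, ‖t p‖ ≤ ν) →
    ∃ τ : ℂ × ℂ → ℂ, Hol τ (Dom (R - δ1) S1) ∧ (∀ p ∈ Dom (R - δ1) S1, ‖τ p‖ ≤ ν) ∧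
      (∀ p ∈ Dom (R - δ1) S1, τ p + t (p.1 + τ p, p.2) = 0)

/-- hypotheses on the corrections `κ`, `E0` -/
structure Cor (κ : ℂ × ℂ → ℂ) (E0 : ℂ → ℂ) (r s δ Λ η : ℝ) : Prop where
  hκ : Hol κ (Dom (r - 5*δ) (s/2))
  bκ : ∀ p ∈ Dom (r - 5*δ) (s/2), ‖κ p‖ ≤ Λ^3 * η
  hE : Hol1 E0 (Om s)
  bE : ∀ w ∈ Om s, ‖E0 w‖ ≤ η

/-- bounds for the corrections -/
def GTT : Prop :=
  ∀ (ρ r s δ Λ η : ℝ) (M : ℕ), Prm ρ r s δ Λ η M →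
  ∀ (S : St) (c : ℝ), Ok S r s c → c ≤ ρ/64 →
  ∀ (κ : ℂ × ℂ → ℂ) (E0 : ℂ → ℂ), Cor κ E0 r s δ Λ η →
    Hol (tt S κ E0) (Dom (r - 6*δ) (3*s/8)) ∧
    (∀ p ∈ Dom (r - 6*δ) (3*s/8), ‖tt S κ E0 p‖ ≤ Λ^5 * η) ∧
    (∀ w ∈ Om (s/2), ‖deriv E0 w‖ ≤ Λ^2 * η ∧ ‖deriv (deriv E0) w‖ ≤ Λ^3 * η) ∧
    (∀ p ∈ Dom (r - 6*δ) (s/2), ‖D1 κ p‖ ≤ Λ^4 * η)

/-- hypotheses on `τ` -/
structure Tau (S : St) (κ : ℂ × ℂ → ℂ) (E0 : ℂ → ℂ) (τ : ℂ × ℂ → ℂ) (r s δ Λ η : ℝ) :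
    Prop where
  hτ : Hol τ (Dom (r - 13/2*δ) (3*s/8))
  bτ : ∀ p ∈ Dom (r - 13/2*δ) (3*s/8), ‖τ p‖ ≤ Λ^5 * η
  eτ : ∀ p ∈ Dom (r - 13/2*δ) (3*s/8), τ p + tt S κ E0 (p.1 + τ p, p.2) = 0

/-- the symplectic identity for the new state -/
def GNewI : Prop :=
  ∀ (ρ r s δ Λ η : ℝ) (M : ℕ), Prm ρ r s δ Λ η M →
  ∀ (S : St) (c : ℝ), Ok S r s c → c ≤ ρ/64 →
  ∀ (κ : ℂ × ℂ → ℂ) (E0 : ℂ → ℂ) (τ : ℂ × ℂ → ℂ), Cor κ E0 r s δ Λ η →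
    Tau S κ E0 τ r s δ Λ η →
    (∀ p ∈ Dom (r - 8*δ) (s/4),
      (1 + D1 (newS S κ E0 τ).u p) * D2 (newS S κ E0 τ).v p
        = ((newS S κ E0 τ).a p.2 + D1 (newS S κ E0 τ).v p) * D2 (newS S κ E0 τ).u p) ∧
    (∀ w ∈ Om (s/4), deriv (newS S κ E0 τ).γ w = w * deriv (newS S κ E0 τ).a w)

/-- `S'` is `ε`-close to `S` on `Dom r s` -/
structure Clo (S S' : St) (r s ε : ℝ) : Prop where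
  cu : ∀ p ∈ Dom r s, ‖S'.u p - S.u p‖ ≤ ε
  cu1 : ∀ p ∈ Dom r s, ‖D1 S'.u p - D1 S.u p‖ ≤ ε
  cv1 : ∀ p ∈ Dom r s, ‖D1 S'.v p - D1 S.v p‖ ≤ ε
  ca : ∀ w ∈ Om s, ‖S'.a w - S.a w‖ ≤ ε

/-- bounds for the new state -/
def GNewO : Prop :=
  ∀ (ρ r s δ Λ η : ℝ) (M : ℕ), Prm ρ r s δ Λ η M →
  ∀ (S : St) (c : ℝ), Ok S r s c → c ≤ ρ/64 →
  ∀ (κ : ℂ × ℂ → ℂ) (E0 : ℂ → ℂ) (τ : ℂ × ℂ → ℂ), Cor κ E0 r s δ Λ η →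
    Tau S κ E0 τ r s δ Λ η →
    Ok (newS S κ E0 τ) (r - 8*δ) (s/4) (c + Λ^10 * η) ∧
    Clo S (newS S κ E0 τ) (r - 8*δ) (s/4) (Λ^10 * η)

/-- the error of the new state -/
def GErr : Prop :=
  ∀ (ρ r s δ Λ η : ℝ) (M : ℕ), Prm ρ r s δ Λ η M → ∀ g : ℂ × ℂ → ℂ, GB g ρ →
  ∀ (S : St) (c : ℝ), Ok S r s c → c ≤ ρ/64 → (∀ p ∈ Dom (r - δ) s, ‖Err g S p‖ ≤ η) →
  ∀ (κ τ : ℂ × ℂ → ℂ), Cor κ (fc (Err g S) 0) r s δ Λ η →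
    Tau S κ (fc (Err g S) 0) τ r s δ Λ η →
    (∀ p ∈ Dom (r - 6*δ) (s/2),
      ‖Err g S p - fc (Err g S) 0 p.2 - (κ (p.1 + p.2, p.2) - κ p)‖
        ≤ Λ * η * Real.exp (-(2 * Real.pi * M * δ)) + Λ^18 * η^2) →
    ∀ p ∈ Dom (r - 17/2*δ) (s/4),
      ‖Err g (newS S κ (fc (Err g S) 0) τ) p‖
        ≤ Λ^20 * η^2 + Λ * η * Real.exp (-(2 * Real.pi * M * δ))

/-- one step of the scheme -/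
def GStep : Prop :=
  ∀ (ρ r s δ Λ η : ℝ) (M : ℕ), Prm ρ r s δ Λ η M → ∀ g : ℂ × ℂ → ℂ, GB g ρ → PERc g →
  ∀ (S : St) (c : ℝ), Ok S r s c → c ≤ ρ/64 → (∀ p ∈ Dom (r - δ) s, ‖Err g S p‖ ≤ η) →
    ∃ S' : St, Ok S' (r - 8*δ) (s/4) (c + Λ^10 * η) ∧
      Clo S S' (r - 8*δ) (s/4) (Λ^10 * η) ∧
      ∀ p ∈ Dom (r - 17/2*δ) (s/4),
        ‖Err g S' p‖ ≤ Λ^20 * η^2 + Λ * η * Real.exp (-(2 * Real.pi * M * δ))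

/-! ### Iteration and limit -/

/-- a sequence of parameters -/
def GNum : Prop :=
  ∃ A0 : ℕ, ∀ ρ : ℝ, 0 < ρ → ρ ≤ 1/4 →
    ∃ (r s δ Λ η : ℕ → ℝ) (M : ℕ → ℕ),
      r 0 = ρ/4 ∧ (∀ n, Prm ρ (r n) (s n) (δ n) (Λ n) (η n) (M n)) ∧
      (∀ n, r (n+1) = r n - 8 * δ n) ∧ (∀ n, s (n+1) = s n / 4) ∧
      (∀ n, δ (n+1) = δ n / 2) ∧
      (∀ n, (Λ n)^20 * (η n)^2 + Λ n * η n * Real.exp (-(2 * Real.pi * M n * δ n)) ≤ η (n+1)) ∧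
      Summable (fun n => (Λ n)^10 * η n) ∧
      (∀ n, ∑ k ∈ Finset.range n, (Λ k)^10 * η k ≤ ρ/128) ∧
      ρ ^ A0 ≤ η 0

/-- what the scheme produces: for every real rotation number in `[1, 2]` an analytic
invariant circle, depending continuously on the rotation number -/
def LimProp (g : ℂ × ℂ → ℂ) : Prop :=
  ∃ h p : ℝ → ℝ → ℝ,
    (∀ w ∈ Icc (1:ℝ) 2, AnalyticOnNhd ℝ (h w) univ ∧ AnalyticOnNhd ℝ (p w) univ ∧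
      ∀ θ : ℝ, h w (θ + 1) = h w θ + 1 ∧ p w (θ + 1) = p w θ ∧
        |h w θ - θ| ≤ 1/50 ∧ |p w θ - w| ≤ 1/50 ∧ 1/2 < deriv (h w) θ ∧
        ((h w (θ + w) - h w θ : ℝ) : ℂ)
          + D2 g ((h w θ : ℂ), ((h w (θ + w) - h w θ : ℝ) : ℂ)) = (p w (θ + w) : ℂ) ∧
        ((h w (θ + w) - h w θ : ℝ) : ℂ)
          + D2 g ((h w θ : ℂ), ((h w (θ + w) - h w θ : ℝ) : ℂ))
          - D1 g ((h w θ : ℂ), ((h w (θ + w) - h w θ : ℝ) : ℂ)) = (p w θ : ℂ)) ∧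
    ContinuousOn (fun q : ℝ × ℝ => h q.1 q.2) (Icc (1:ℝ) 2 ×ˢ univ) ∧
    ContinuousOn (fun q : ℝ × ℝ => p q.1 q.2) (Icc (1:ℝ) 2 ×ˢ univ)

/-- a sequence of states with errors going to zero -/
structure Seq (g : ℂ × ℂ → ℂ) (ρ : ℝ) (S : ℕ → St) (r s δ Λ η : ℕ → ℝ) (M : ℕ → ℕ) :
    Prop where
  prm : ∀ n, Prm ρ (r n) (s n) (δ n) (Λ n) (η n) (M n)
  ok : ∀ n, Ok (S n) (r n) (s n) (∑ k ∈ Finset.range n, (Λ k)^10 * η k)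
  cb : ∀ n, ∑ k ∈ Finset.range n, (Λ k)^10 * η k ≤ ρ/128
  clo : ∀ n, Clo (S n) (S (n+1)) (r (n+1)) (s (n+1)) ((Λ n)^10 * η n)
  err : ∀ n, ∀ p ∈ Dom (r n - δ n) (s n), ‖Err g (S n) p‖ ≤ η n
  sum : Summable (fun n => (Λ n)^10 * η n)

/-- the iteration -/
def GIter : Prop :=
  ∃ A0 : ℕ, ∀ ρ : ℝ, 0 < ρ → ρ ≤ 1/4 → ∀ g : ℂ × ℂ → ℂ, Hol g (DG ρ) →
    (∀ p ∈ DG ρ, ‖g p‖ ≤ ρ ^ A0) → PERc g →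
    GB g ρ ∧ ∃ (S : ℕ → St) (r s δ Λ η : ℕ → ℝ) (M : ℕ → ℕ), Seq g ρ S r s δ Λ η M

/-- passage to the limit -/
def GLimit : Prop :=
  ∀ (g : ℂ × ℂ → ℂ) (ρ : ℝ), GB g ρ → ∀ (S : ℕ → St) (r s δ Λ η : ℕ → ℝ) (M : ℕ → ℕ),
    Seq g ρ S r s δ Λ η M → LimProp g

/-- the result of stage 1 -/
def GStage1 : Prop :=
  ∃ A0 : ℕ, ∀ ρ : ℝ, 0 < ρ → ρ ≤ 1/4 → ∀ g : ℂ × ℂ → ℂ, Hol g (DG ρ) →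
    (∀ p ∈ DG ρ, ‖g p‖ ≤ ρ ^ A0) → PERc g → LimProp g

end Pool.Agent.Helper83.TW
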