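import Pool.Agent.Helper83.TW.Goals1

/-! Stage 2 of the proof: from a near-integrable foliated map to a generating function whose
periodic orbits have constant action, and identification of the leaves. -/

set_option autoImplicit false

namespace Pool.Agent.Helper83.TW

open Complex Set

/-- complex domain of the map -/
def WG (ρ : ℝ) : Set (ℂ × ℂ) :=
  {p | |p.1.im| < ρ ∧ 1/16 < p.2.re ∧ p.2.re < 47/16 ∧ |p.2.im| < ρ}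

/-- near-integrable data: the map is `(x + Y + P(x,Y), Y + Q(x,Y))` -/
structure NI (P Q : ℂ × ℂ → ℂ) (ρ η : ℝ) : Prop where
  hρ0 : 0 < ρ
  hρ1 : ρ ≤ 1/4
  hη0 : 0 < η
  hη : 10^6 * η ≤ ρ
  hP : Hol P (WG ρ)
  hQ : Hol Q (WG ρ)
  bP : ∀ p ∈ WG ρ, ‖P p‖ ≤ η
  bQ : ∀ p ∈ WG ρ, ‖Q p‖ ≤ η
  det : ∀ p ∈ WG ρ, (1 + D1 P p) * (1 + D2 Q p) - (1 + D2 P p) * D1 Q p = 1

/-- the real map -/
noncomputable def Gm (P Q : ℂ × ℂ → ℂ) (x y : ℝ) : ℝ × ℝ :=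
  (x + y + (P ((x : ℂ), (y : ℂ))).re, y + (Q ((x : ℂ), (y : ℂ))).re)

/-- a family of invariant circles of the real map, filling the strip `3/16 < y < 45/16` -/
structure Leaves (P Q : ℂ × ℂ → ℂ) {ι : Type} (U : ι → ℝ → ℝ) : Prop where
  cont : ∀ i, Continuous (U i)
  per : ∀ i x, U i (x + 1) = U i x
  inside : ∀ i x, 1/8 < U i x ∧ U i x < 23/8
  cover : ∀ x y : ℝ, 3/16 < y → y < 45/16 → ∃ i, U i x = y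
  disj : ∀ i j x, U i x = U j x → ∀ x', U i x' = U j x'
  inv : ∀ i x, (Gm P Q x (U i x)).2 = U i (Gm P Q x (U i x)).1

/-- the generating function `g` and the momentum `d + y(x,d)` -/
structure Gen (P Q y g : ℂ × ℂ → ℂ) (c0 : ℂ) (ρ η : ℝ) : Prop where
  gd : DifferentiableOn ℂ g (DG (ρ/2))
  gs : ∀ p ∈ DG (ρ/2), g (cj p.1, cj p.2) = cj (g p)
  gp : ∀ p ∈ DG (ρ/2), g (p.1 + 1, p.2) = g p + c0
  gb : ∀ p ∈ DG (ρ/2), |p.1.re| ≤ 1 → ‖g p‖ ≤ 6 * η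
  yH : Hol y (DG (ρ/2))
  yb : ∀ p ∈ DG (ρ/2), ‖y p‖ ≤ η
  ye : ∀ p ∈ DG (ρ/2), y p + P (p.1, p.2 + y p) = 0
  g1 : ∀ p ∈ DG (ρ/2), D1 g p = Q (p.1, p.2 + y p)
  g2 : ∀ p ∈ DG (ρ/2), D2 g p = y p + Q (p.1, p.2 + y p)
  yu : ∀ x Y : ℝ, 1/16 < Y → Y < 47/16 → 1/4 < Y + (P ((x:ℂ), (Y:ℂ))).re →
    Y + (P ((x:ℂ), (Y:ℂ))).re < 11/4 →
    (y ((x:ℂ), ((Y + (P ((x:ℂ), (Y:ℂ))).re : ℝ) : ℂ))).re = -(P ((x:ℂ), (Y:ℂ))).re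
  ymono : ∀ x d d' : ℝ, 1/4 < d → d < d' → d' < 11/4 →
    d + (y ((x:ℂ), (d:ℂ))).re < d' + (y ((x:ℂ), (d':ℂ))).re

/-- existence of the generating function -/
def GGen : Prop :=
  ∀ (P Q : ℂ × ℂ → ℂ) (ρ η : ℝ), NI P Q ρ η →
    ∃ (y g : ℂ × ℂ → ℂ) (c0 : ℂ), Gen P Q y g c0 ρ η

/-- order, monotonicity and small oscillation of the leaves -/
def GOsc : Prop :=
  ∀ (P Q : ℂ × ℂ → ℂ) (ρ η : ℝ), NI P Q ρ η → ∀ (ι : Type) (U : ι → ℝ → ℝ), Leaves P Q U →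
    (∀ i x x', |U i x - U i x'| ≤ 1/100) ∧
    (∀ i, StrictMono (fun x => (Gm P Q x (U i x)).1)) ∧
    (∀ i, Continuous (fun x => (Gm P Q x (U i x)).1)) ∧
    (∀ i x, (Gm P Q (x + 1) (U i (x + 1))).1 = (Gm P Q x (U i x)).1 + 1) ∧
    (∀ i j x, U i x < U j x → ∀ x', U i x' < U j x')

/-- calibration of the leaves -/
def GCal : Prop :=
  ∀ (P Q : ℂ × ℂ → ℂ) (ρ η : ℝ), NI P Q ρ η → ∀ (ι : Type) (U : ι → ℝ → ℝ), Leaves P Q U →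
  ∀ (y g : ℂ × ℂ → ℂ) (c0 : ℂ), Gen P Q y g c0 ρ η →
  ∀ i, (∀ x, 2/5 < U i x ∧ U i x < 13/5) → ∃ φ : ℝ,
    (∀ x d : ℝ, 1/4 < d → d < 11/4 →
      φ ≤ (ell g (x:ℂ) (d:ℂ)).re - ∫ t in x..(x + d), U i t) ∧
    (∀ x : ℝ, (ell g (x:ℂ) (((Gm P Q x (U i x)).1 - x : ℝ) : ℂ)).re
      - (∫ t in x..(Gm P Q x (U i x)).1, U i t) = φ)

/-- the generating function is periodic -/
def GC0 : Prop :=
  ∀ (P Q : ℂ × ℂ → ℂ) (ρ η : ℝ), NI P Q ρ η → ∀ (ι : Type) (U : ι → ℝ → ℝ), Leaves P Q U →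
  ∀ (y g : ℂ × ℂ → ℂ) (c0 : ℂ), Gen P Q y g c0 ρ η → c0 = 0

/-- periodic Euler-Lagrange paths have constant action -/
def GPer : Prop :=
  ∀ (P Q : ℂ × ℂ → ℂ) (ρ η : ℝ), NI P Q ρ η → ∀ (ι : Type) (U : ι → ℝ → ℝ), Leaves P Q U →
  ∀ (y g : ℂ × ℂ → ℂ), Gen P Q y g 0 ρ η → PERc g

/-- identification of the leaves with the analytic circles of `LimProp` -/
def GId : Prop :=
  ∀ (P Q : ℂ × ℂ → ℂ) (ρ η : ℝ), NI P Q ρ η → ∀ (ι : Type) (U : ι → ℝ → ℝ), Leaves P Q U →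
  ∀ (y g : ℂ × ℂ → ℂ), Gen P Q y g 0 ρ η → LimProp g →
  ∀ i, 1 ≤ (Gm P Q 0 (U i 0)).1 → (Gm P Q 0 (U i 0)).1 ≤ 2 → AnalyticOnNhd ℝ (U i) univ

/-- the window theorem -/
def GW : Prop :=
  ∃ A : ℕ, ∀ (P Q : ℂ × ℂ → ℂ) (ρ η : ℝ), NI P Q ρ η → η ≤ ρ ^ A →
  ∀ (ι : Type) (U : ι → ℝ → ℝ), Leaves P Q U →
  ∀ i, 1 ≤ (Gm P Q 0 (U i 0)).1 → (Gm P Q 0 (U i 0)).1 ≤ 2 → AnalyticOnNhd ℝ (U i) univ

/-- near-integrable foliated maps of the whole cylinder -/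
def GNI : Prop :=
  ∀ ρ : ℝ, 0 < ρ → ∃ η : ℝ, 0 < η ∧
    ∀ (P Q : ℂ × ℂ → ℂ),
      DifferentiableOn ℂ P {p | |p.1.im| < ρ ∧ |p.2.im| < ρ} →
      DifferentiableOn ℂ Q {p | |p.1.im| < ρ ∧ |p.2.im| < ρ} →
      (∀ p : ℂ × ℂ, |p.1.im| < ρ → |p.2.im| < ρ →
        ‖P p‖ ≤ η ∧ ‖Q p‖ ≤ η ∧ P (p.1 + 1, p.2) = P p ∧ Q (p.1 + 1, p.2) = Q p) →
      (∀ x y : ℝ, (P ((x:ℂ), (y:ℂ))).im = 0 ∧ (Q ((x:ℂ), (y:ℂ))).im = 0) →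
      (∀ q : ℝ × ℝ, LinearMap.det
        (fderiv ℝ (fun q : ℝ × ℝ => Gm P Q q.1 q.2) q : ℝ × ℝ →ₗ[ℝ] ℝ × ℝ) = 1) →
      ∀ u : ℝ → ℝ → ℝ, (∀ c : ℝ, Continuous (u c)) → (∀ c x : ℝ, u c (x + 1) = u c x) →
      (∀ c x : ℝ, (Gm P Q x (u c x)).2 = u c (Gm P Q x (u c x)).1) →
      (∀ p : ℝ × ℝ, ∃! c : ℝ, p.2 = u c p.1) →
      ∀ c : ℝ, AnalyticOnNhd ℝ (u c) univ

/-- oscillation bound for leaves which may leave the window -/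
def GOscG : Prop :=
  ∀ (η : ℝ) (U γ : ℝ → ℝ), 0 ≤ η → 10^6 * η ≤ 1 → Continuous U → (∀ x, U (x + 1) = U x) →
    StrictMono γ → (∀ x, γ (x + 1) = γ x + 1) →
    (∀ x, 1/16 < U x → U x < 47/16 → |γ x - x - U x| ≤ η ∧ |U (γ x) - U x| ≤ η) →
    ∀ x0, 3/16 < U x0 → U x0 < 45/16 → ∀ x, |U x - U x0| < 1/16

/-- identity theorem for the determinant: real to complex, on strips -/
def GDetC : Prop :=
  ∀ (P Q : ℂ × ℂ → ℂ) (ρ : ℝ), 0 < ρ → Hol P (WG ρ) → Hol Q (WG ρ) →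
    (∀ x y : ℝ, 1/16 < y → y < 47/16 → LinearMap.det
        (fderiv ℝ (fun q : ℝ × ℝ => Gm P Q q.1 q.2) (x, y) : ℝ × ℝ →ₗ[ℝ] ℝ × ℝ) = 1) →
    ∀ p ∈ WG ρ, (1 + D1 P p) * (1 + D2 Q p) - (1 + D2 P p) * D1 Q p = 1

/-- reality on real points gives the symmetry `f (cj p) = cj (f p)` -/
def GSym : Prop :=
  (∀ (f : ℂ × ℂ → ℂ) (ρ : ℝ), 0 < ρ → DifferentiableOn ℂ f (WG ρ) →
    (∀ x y : ℝ, 1/16 < y → y < 47/16 → (f ((x:ℂ), (y:ℂ))).im = 0) →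
    ∀ p ∈ WG ρ, f (cj p.1, cj p.2) = cj (f p))

/-- inverse of an analytic circle diffeomorphism -/
def GInvAn : Prop :=
  ∀ f : ℝ → ℝ, AnalyticOnNhd ℝ f univ → (∀ x, 0 < deriv f x) → (∀ x, f (x + 1) = f x + 1) →
    ∃ g : ℝ → ℝ, AnalyticOnNhd ℝ g univ ∧ (∀ x, g (f x) = x) ∧ (∀ y, f (g y) = y) ∧
      StrictMono f ∧ StrictMono g ∧ (∀ y, g (y + 1) = g y + 1)

/-- analytic implicit function theorem for a continuous solution -/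
def GImp : Prop :=
  ∀ (D : ℝ × ℝ → ℝ) (u : ℝ → ℝ), AnalyticOnNhd ℝ D univ → Continuous u →
    (∀ x, D (x, u x) = 0) → (∀ x, deriv (fun t => D (x, t)) (u x) ≠ 0) →
    AnalyticOnNhd ℝ u univ

end Pool.Agent.Helper83.TW
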