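import Pool.Agent.Helper83.TW.All

/-! # MP_39e2b7_an : foliated analytic twist maps close to the integrable map `(x + y, y)` -/

set_option autoImplicit false

namespace Pool.Agent.Helper83.TW.NearIntegrable

open Pool.Agent.Helper83.TW

/-- For every width `ρ > 0` there is `η > 0` such that for every analytic area-preserving map
`F (x, y) = (x + y + P (x, y), y + Q (x, y))` of the cylinder, with `P`, `Q` holomorphic, 1-periodic
in `x` and bounded by `η` on the complex strip `|Im x| < ρ`, `|Im y| < ρ`: if the plane is partitioned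
into `F`-invariant graphs of continuous 1-periodic functions, all these functions are real-analytic. -/
theorem result :
    ∀ ρ : ℝ, 0 < ρ → ∃ η : ℝ, 0 < η ∧
      ∀ (P Q : ℂ × ℂ → ℂ),
        DifferentiableOn ℂ P {p | |p.1.im| < ρ ∧ |p.2.im| < ρ} →
        DifferentiableOn ℂ Q {p | |p.1.im| < ρ ∧ |p.2.im| < ρ} →
        (∀ p : ℂ × ℂ, |p.1.im| < ρ → |p.2.im| < ρ →
          ‖P p‖ ≤ η ∧ ‖Q p‖ ≤ η ∧ P (p.1 + 1, p.2) = P p ∧ Q (p.1 + 1, p.2) = Q p) →
        (∀ x y : ℝ, (P ((x : ℂ), (y : ℂ))).im = 0 ∧ (Q ((x : ℂ), (y : ℂ))).im = 0) →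
        ∀ (F : ℝ × ℝ → ℝ × ℝ) (u : ℝ → ℝ → ℝ),
          (∀ x y : ℝ, F (x, y) =
            (x + y + (P ((x : ℂ), (y : ℂ))).re, y + (Q ((x : ℂ), (y : ℂ))).re)) →
          (∀ p : ℝ × ℝ, LinearMap.det (fderiv ℝ F p : ℝ × ℝ →ₗ[ℝ] ℝ × ℝ) = 1) →
          (∀ c : ℝ, Continuous (u c)) →
          (∀ c x : ℝ, u c (x + 1) = u c x) →
          (∀ c x : ℝ, (F (x, u c x)).2 = u c (F (x, u c x)).1) →
          (∀ p : ℝ × ℝ, ∃! c : ℝ, p.2 = u c p.1) →
          ∀ c : ℝ, AnalyticOnNhd ℝ (u c) Set.univ := by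
  intro ρ hρ
  obtain ⟨η, hη, H⟩ := all_NI ρ hρ
  refine ⟨η, hη, ?_⟩
  intro P Q hP hQ hb hre F u hF hdet hc hper hinv huniq
  have hFG : F = fun q : ℝ × ℝ => Gm P Q q.1 q.2 := by
    funext q
    obtain ⟨x, y⟩ := q
    exact hF x y
  subst hFG
  exact H P Q hP hQ hb hre hdet u hc hper hinv huniq

end Pool.Agent.Helper83.TW.NearIntegrable
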